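import Pool.Agent.Lib_helper1.PS.Defs

/-!
# Elementary facts on the definitions of `PS`
-/

namespace Pool.Agent.PS

open Filter Topology MeasureTheory

theorem lam_zero : lam 0 = 0 := by simp [lam]

theorem lam_one : lam 1 = 1 := by simp [lam]

theorem lam_mul (a b : ℕ) : lam (a * b) = lam a * lam b := by
  unfold lam
  by_cases ha : a = 0
  · simp [ha]
  by_cases hb : b = 0
  · simp [hb]
  have hab : a * b ≠ 0 := mul_ne_zero ha hb
  rw [if_neg ha, if_neg hb, if_neg hab, ArithmeticFunction.cardFactors_mul ha hb, pow_add]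

theorem lam_prime {p : ℕ} (hp : p.Prime) : lam p = -1 := by
  unfold lam
  rw [if_neg hp.ne_zero, ArithmeticFunction.cardFactors_apply_prime hp]
  norm_num

theorem lam_pm (n : ℕ) (hn : n ≠ 0) : lam n = 1 ∨ lam n = -1 := by
  unfold lam
  rw [if_neg hn]
  exact neg_one_pow_eq_or ℝ _

theorem lam_abs (n : ℕ) : |lam n| ≤ 1 := by
  by_cases hn : n = 0
  · unfold lam; simp [hn]
  · rcases lam_pm n hn with h | h <;> rw [h] <;> simp

theorem lam_sq {n : ℕ} (hn : n ≠ 0) : lam n ^ 2 = 1 := by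
  rcases lam_pm n hn with h | h <;> rw [h] <;> norm_num

theorem lam_norm (n : ℕ) : ‖(lam n : ℂ)‖ ≤ 1 := by
  rw [Complex.norm_real, Real.norm_eq_abs]; exact lam_abs n

theorem lam_liouville (n : ℕ) : lam n = (ArithmeticFunction.liouville n : ℝ) := by
  by_cases hn : n = 0
  · simp [hn, lam]
  · rw [ArithmeticFunction.liouville_apply hn]
    unfold lam
    rw [if_neg hn]
    push_cast
    rfl

theorem lz_zero : lz 0 = 0 := by simp [lz, lam_zero]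

theorem lz_neg (n : ℤ) : lz (-n) = lz n := by unfold lz; rw [Int.natAbs_neg]

theorem lz_nat (n : ℕ) : lz (n : ℤ) = lam n := by unfold lz; simp

theorem lz_mul (a b : ℤ) : lz (a * b) = lz a * lz b := by
  unfold lz; rw [Int.natAbs_mul, lam_mul]

theorem lz_abs (n : ℤ) : |lz n| ≤ 1 := lam_abs _

theorem lz_norm (n : ℤ) : ‖(lz n : ℂ)‖ ≤ 1 := lam_norm _

theorem lz_pm (n : ℤ) (hn : n ≠ 0) : lz n = 1 ∨ lz n = -1 :=
  lam_pm _ (by simpa using hn)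

theorem tw_mul (τ : ℝ) (a b : ℕ) : tw τ (a * b) = tw τ a * tw τ b := by
  unfold tw
  push_cast
  exact Complex.natCast_mul_natCast_cpow a b _

theorem tw_one (τ : ℝ) : tw τ 1 = 1 := by simp [tw]

theorem tw_norm (τ : ℝ) {n : ℕ} (hn : 1 ≤ n) : ‖tw τ n‖ = 1 := by
  unfold tw
  rw [Complex.norm_natCast_cpow_of_pos (by omega)]
  simp

theorem tw_le (τ : ℝ) (n : ℕ) : ‖tw τ n‖ ≤ 1 := by
  rcases Nat.eq_zero_or_pos n with h | h
  · subst h
    unfold tw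
    by_cases hτ : (τ : ℂ) * Complex.I = 0
    · simp [hτ]
    · rw [Nat.cast_zero, Complex.zero_cpow hτ]
      simp
  · exact (tw_norm τ h).le

theorem tw_exp (τ : ℝ) {n : ℕ} (hn : 1 ≤ n) :
    tw τ n = Complex.exp ((τ * Real.log n : ℝ) * Complex.I) := by
  unfold tw
  have h : (n : ℂ) ≠ 0 := by exact_mod_cast (by omega : n ≠ 0)
  rw [Complex.cpow_def_of_ne_zero h]
  congr 1
  rw [← Complex.natCast_log]
  push_cast
  ring

theorem tw_zero' {n : ℕ} : tw 0 n = 1 := by simp [tw]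

theorem tw_add (τ σ : ℝ) {n : ℕ} (hn : 1 ≤ n) : tw (τ + σ) n = tw τ n * tw σ n := by
  rw [tw_exp _ hn, tw_exp _ hn, tw_exp _ hn, ← Complex.exp_add]
  congr 1
  push_cast
  ring

theorem tw_conj (τ : ℝ) {n : ℕ} (hn : 1 ≤ n) : (starRingEnd ℂ) (tw τ n) = tw (-τ) n := by
  rw [tw_exp _ hn, tw_exp _ hn, ← Complex.exp_conj]
  congr 1
  rw [map_mul, Complex.conj_ofReal, Complex.conj_I]
  push_cast
  ring

theorem tw_ne (τ : ℝ) {n : ℕ} (hn : 1 ≤ n) : tw τ n ≠ 0 := by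
  intro h
  have := tw_norm τ hn
  rw [h, norm_zero] at this
  exact zero_ne_one this

theorem ang_mul (k : ℤ) (a b : ℕ) : ang k (a * b) = ang k a * ang k b := tw_mul _ a b

theorem ang_one (k : ℤ) : ang k 1 = 1 := tw_one _

theorem ang_norm (k : ℤ) {n : ℕ} (hn : 1 ≤ n) : ‖ang k n‖ = 1 := tw_norm _ hn

theorem ang_le (k : ℤ) (n : ℕ) : ‖ang k n‖ ≤ 1 := tw_le _ n

theorem ang_zero' {n : ℕ} : ang 0 n = 1 := by
  unfold ang
  simp [tw_zero']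

theorem ang_add (k l : ℤ) {n : ℕ} (hn : 1 ≤ n) : ang (k + l) n = ang k n * ang l n := by
  unfold ang
  rw [← tw_add _ _ hn]
  congr 1
  push_cast
  ring

theorem ang_conj (k : ℤ) {n : ℕ} (hn : 1 ≤ n) : (starRingEnd ℂ) (ang k n) = ang (-k) n := by
  unfold ang
  rw [tw_conj _ hn]
  congr 1
  push_cast
  ring

theorem ang_exp (k : ℤ) {n : ℕ} (hn : 1 ≤ n) :
    ang k n = Complex.exp ((2 * Real.pi * k * Real.log n : ℝ) * Complex.I) := tw_exp _ hn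

theorem ang_pow (k : ℤ) {n : ℕ} (l : ℕ) : ang k (n ^ l) = ang k n ^ l := by
  induction l with
  | zero => simp [ang_one]
  | succ l ih => rw [pow_succ, ang_mul, ih, pow_succ]

theorem mem_Bl {x : ℝ} {n : ℕ} : n ∈ Bl x ↔ 1 ≤ n ∧ (n : ℝ) ≤ x := by
  unfold Bl
  rw [Finset.mem_Icc]
  constructor
  · rintro ⟨h1, h2⟩
    refine ⟨h1, ?_⟩
    have hx : 0 ≤ x := by
      by_contra h
      push Not at h
      rw [Nat.floor_of_nonpos h.le] at h2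
      omega
    exact (Nat.le_floor_iff hx).1 h2
  · rintro ⟨h1, h2⟩
    exact ⟨h1, Nat.le_floor h2⟩

theorem mem_PB {x : ℝ} {n : ℕ} : n ∈ PB x ↔ 1 ≤ n ∧ (n : ℝ) ≤ x ∧ x / Real.exp 1 < (n : ℝ) := by
  classical
  unfold PB
  rw [Finset.mem_filter, mem_Bl]
  tauto

theorem mem_EB {x : ℝ} {n : ℕ} : n ∈ EB x ↔ 1 ≤ n ∧ (n : ℝ) ≤ x ∧ x / 6 < (n : ℝ) := by
  classical
  unfold EB
  rw [Finset.mem_filter, mem_Bl]
  tauto

theorem PB_sub_EB (x : ℝ) : PB x ⊆ EB x := by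
  intro n hn
  rw [mem_PB] at hn
  rw [mem_EB]
  obtain ⟨h1, h2, h3⟩ := hn
  refine ⟨h1, h2, lt_of_le_of_lt ?_ h3⟩
  have hx : 0 ≤ x := le_trans (Nat.cast_nonneg _) h2
  have he := Real.exp_one_lt_d9
  have he0 := Real.exp_pos 1
  gcongr
  linarith

theorem PB_sub_Bl (x : ℝ) : PB x ⊆ Bl x := by
  intro n hn
  rw [mem_PB] at hn
  rw [mem_Bl]
  exact ⟨hn.1, hn.2.1⟩

theorem EB_sub_Bl (x : ℝ) : EB x ⊆ Bl x := by
  intro n hn
  rw [mem_EB] at hn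
  rw [mem_Bl]
  exact ⟨hn.1, hn.2.1⟩

theorem Bl_card {x : ℝ} (hx : 0 ≤ x) : ((Bl x).card : ℝ) ≤ x := by
  unfold Bl
  rw [Nat.card_Icc, Nat.add_sub_cancel]
  exact Nat.floor_le hx

theorem PB_card {x : ℝ} (hx : 0 ≤ x) : ((PB x).card : ℝ) ≤ x :=
  le_trans (by exact_mod_cast Finset.card_le_card (PB_sub_Bl x)) (Bl_card hx)

theorem EB_card {x : ℝ} (hx : 0 ≤ x) : ((EB x).card : ℝ) ≤ x :=
  le_trans (by exact_mod_cast Finset.card_le_card (EB_sub_Bl x)) (Bl_card hx)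

theorem mem_Ks {K : ℝ} {k : ℤ} : k ∈ Ks K ↔ |(k : ℝ)| ≤ K := by
  unfold Ks
  rw [Finset.mem_Icc, abs_le, Int.le_floor, neg_le, Int.le_floor]
  push_cast
  constructor
  · rintro ⟨h1, h2⟩
    exact ⟨by linarith, h2⟩
  · rintro ⟨h1, h2⟩
    exact ⟨by linarith, h2⟩

theorem Ks_card {K : ℝ} (hK : 0 ≤ K) : ((Ks K).card : ℝ) ≤ 2 * K + 1 := by
  unfold Ks
  rw [Int.card_Icc]
  have h1 : (0 : ℤ) ≤ ⌊K⌋ := Int.floor_nonneg.2 hK
  have h2 : ((⌊K⌋ + 1 - -⌊K⌋).toNat : ℤ) = 2 * ⌊K⌋ + 1 := by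
    rw [Int.toNat_of_nonneg (by omega)]; ring
  have h3 : (((⌊K⌋ + 1 - -⌊K⌋).toNat : ℕ) : ℝ) = 2 * (⌊K⌋ : ℝ) + 1 := by
    have := congrArg (fun z : ℤ => (z : ℝ)) h2
    push_cast at this
    exact this
  rw [h3]
  have := Int.floor_le K
  linarith

theorem Ks_mono {K L : ℝ} (h : K ≤ L) : Ks K ⊆ Ks L := by
  intro k hk
  rw [mem_Ks] at hk ⊢
  exact hk.trans h

theorem chi_le {m : ℕ} (χ : DirichletCharacter ℂ m) (n : ℕ) : ‖χ (n : ZMod m)‖ ≤ 1 :=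
  DirichletCharacter.norm_le_one χ _

theorem xi_one {m : ℕ} (χ : DirichletCharacter ℂ m) (k : ℤ) : xi χ k 1 = 1 := by
  unfold xi; simp [ang_one]

theorem xi_mul {m : ℕ} (χ : DirichletCharacter ℂ m) (k : ℤ) (a b : ℕ) :
    xi χ k (a * b) = xi χ k a * xi χ k b := by
  unfold xi
  rw [ang_mul]
  push_cast
  rw [map_mul]
  ring

theorem xi_le {m : ℕ} (χ : DirichletCharacter ℂ m) (k : ℤ) (n : ℕ) : ‖xi χ k n‖ ≤ 1 := by
  unfold xi
  rw [norm_mul]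
  exact mul_le_one₀ (chi_le χ n) (norm_nonneg _) (ang_le k n)

/-- the completely multiplicative function `λ χ n^(2πik)` -/
theorem lamxi_mul {m : ℕ} (χ : DirichletCharacter ℂ m) (k : ℤ) (a b : ℕ) :
    (lam (a * b) : ℂ) * xi χ k (a * b) = ((lam a : ℂ) * xi χ k a) * ((lam b : ℂ) * xi χ k b) := by
  rw [lam_mul, xi_mul]
  push_cast
  ring

theorem lamxi_le {m : ℕ} (χ : DirichletCharacter ℂ m) (k : ℤ) (n : ℕ) :
    ‖(lam n : ℂ) * xi χ k n‖ ≤ 1 := by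
  rw [norm_mul]
  exact mul_le_one₀ (lam_norm n) (norm_nonneg _) (xi_le χ k n)

theorem Sm_le {m : ℕ} (χ : DirichletCharacter ℂ m) (k : ℤ) {x : ℝ} (hx : 0 ≤ x) :
    ‖Sm χ k x‖ ≤ x := by
  unfold Sm
  calc ‖∑ n ∈ PB x, (lam n : ℂ) * xi χ k n‖ ≤ ∑ n ∈ PB x, (1 : ℝ) :=
        norm_sum_le_of_le _ (fun n _ => lamxi_le χ k n)
    _ = ((PB x).card : ℝ) := by simp
    _ ≤ x := PB_card hx

theorem Qs_le {m : ℕ} (χ : DirichletCharacter ℂ m) (k : ℤ) (B : Finset ℕ) :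
    ‖Qs χ k B‖ ≤ B.card := by
  unfold Qs
  calc ‖∑ p ∈ B, xi χ k p‖ ≤ ∑ p ∈ B, (1 : ℝ) := norm_sum_le_of_le _ (fun p _ => xi_le χ k p)
    _ = B.card := by simp

theorem ez_norm (α : ℝ) : ‖ez α‖ = 1 := by
  unfold ez
  exact Complex.norm_exp_ofReal_mul_I _

theorem ez_add (α β : ℝ) : ez (α + β) = ez α * ez β := by
  unfold ez
  rw [← Complex.exp_add]
  congr 1
  push_cast
  ring

theorem ez_zero : ez 0 = 1 := by simp [ez]

theorem ez_int (n : ℤ) : ez n = 1 := by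
  unfold ez
  rw [Complex.exp_eq_one_iff]
  exact ⟨n, by push_cast; ring⟩

theorem ez_conj (α : ℝ) : (starRingEnd ℂ) (ez α) = ez (-α) := by
  unfold ez
  rw [← Complex.exp_conj, map_mul, Complex.conj_ofReal, Complex.conj_I]
  congr 1
  push_cast
  ring

theorem mem_Iz {H : ℕ} {a : ℤ} : a ∈ Iz H ↔ -(H : ℤ) ≤ a ∧ a ≤ H := by
  unfold Iz
  exact Finset.mem_Icc

theorem mem_Iz' {H : ℕ} {a : ℤ} : a ∈ Iz H ↔ |a| ≤ H := by
  rw [mem_Iz, abs_le]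

theorem Iz_card (H : ℕ) : (Iz H).card = 2 * H + 1 := by
  unfold Iz
  rw [Int.card_Icc]
  omega

theorem bx_card (j H : ℕ) : (bx j H).card = (2 * H + 1) ^ (j + 1) := by
  unfold bx
  rw [Fintype.card_piFinset]
  simp [Iz_card]

theorem mem_bx {j H : ℕ} {h : Fin (j + 1) → ℤ} : h ∈ bx j H ↔ ∀ i, |h i| ≤ H := by
  unfold bx
  rw [Fintype.mem_piFinset]
  simp only [mem_Iz']

theorem bq_nonneg (q : ℤ) (θ : ℝ) (N : ℕ) (A : ℤ) : 0 ≤ bq q θ N A := by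
  unfold bq; positivity

theorem bq_le (q : ℤ) (θ : ℝ) (N : ℕ) (A : ℤ) : bq q θ N A ≤ 1 := by
  unfold bq
  apply div_le_one_of_le₀ _ (Nat.cast_nonneg _)
  calc ‖∑ i ∈ Finset.range N, ez (θ * i) * (lz (A + q * i) : ℂ)‖
      ≤ ∑ i ∈ Finset.range N, (1 : ℝ) := by
        apply norm_sum_le_of_le
        intro i _
        rw [norm_mul, ez_norm, one_mul]
        exact lz_norm _
    _ = N := by simp

end Pool.Agent.PS
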