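import Mathlib

/-!
# The Liouville function at the values of polynomials with random low coefficients: definitions
(MP_892e4c_nt)
-/

namespace Pool.Agent.PS

open Filter Topology MeasureTheory

/-- Liouville's function -/
noncomputable def lam (n : ℕ) : ℝ :=
  if n = 0 then 0 else (-1) ^ (ArithmeticFunction.cardFactors n)

/-- Liouville's function of an integer -/
noncomputable def lz (n : ℤ) : ℝ := lam n.natAbs

/-- the archimedean character `n ^ (i τ)` -/
noncomputable def tw (τ : ℝ) (n : ℕ) : ℂ := (n : ℂ) ^ ((τ : ℂ) * Complex.I)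

/-- the archimedean character `n ^ (2 π i k)`, which has period `1` in `log n` -/
noncomputable def ang (k : ℤ) (n : ℕ) : ℂ := tw (2 * Real.pi * k) n

/-- the positive integers up to `x` -/
noncomputable def Bl (x : ℝ) : Finset ℕ := Finset.Icc 1 ⌊x⌋₊

open Classical in
/-- the integers in `(x / e, x]` (a full period) -/
noncomputable def PB (x : ℝ) : Finset ℕ := (Bl x).filter (fun n => x / Real.exp 1 < (n : ℝ))

open Classical in
/-- the integers in `(x / 6, x]` (for error terms) -/
noncomputable def EB (x : ℝ) : Finset ℕ := (Bl x).filter (fun n => x / 6 < (n : ℝ))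

/-- the integers of absolute value at most `K` -/
noncomputable def Ks (K : ℝ) : Finset ℤ := Finset.Icc (-⌊K⌋) ⌊K⌋

/-- the character `χ(n) n ^ (2 π i k)` -/
noncomputable def xi {m : ℕ} (χ : DirichletCharacter ℂ m) (k : ℤ) (n : ℕ) : ℂ := χ n * ang k n

/-- the twisted sum of the Liouville function over a window -/
noncomputable def Sm {m : ℕ} (χ : DirichletCharacter ℂ m) (k : ℤ) (x : ℝ) : ℂ :=
  ∑ n ∈ PB x, (lam n : ℂ) * xi χ k n

/-- the full twisted sum of the Liouville function -/
noncomputable def Sf {m : ℕ} (χ : DirichletCharacter ℂ m) (τ : ℝ) (x : ℝ) : ℂ :=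
  ∑ n ∈ Bl x, (lam n : ℂ) * (χ n * tw τ n)

/-- finite sets of primes -/
def Pset (B : Finset ℕ) : Prop := ∀ p ∈ B, p.Prime

/-- the sum of a character over a set of primes -/
noncomputable def Qs {m : ℕ} (χ : DirichletCharacter ℂ m) (k : ℤ) (B : Finset ℕ) : ℂ :=
  ∑ p ∈ B, xi χ k p

open Classical in
/-- the primes of `B` in `(ρ^v, ρ^(v+1)]` -/
noncomputable def blk (ρ : ℝ) (v : ℕ) (B : Finset ℕ) : Finset ℕ :=
  B.filter (fun p => ρ ^ v < (p : ℝ) ∧ (p : ℝ) ≤ ρ ^ (v + 1))

/-- the sum of the reciprocals -/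
noncomputable def rs (B : Finset ℕ) : ℝ := ∑ p ∈ B, 1 / (p : ℝ)

open Classical in
/-- the primes in `(P, Q]` -/
noncomputable def pr1 (P Q : ℝ) : Finset ℕ :=
  (Finset.range (⌊Q⌋₊ + 1)).filter (fun p => p.Prime ∧ P < (p : ℝ) ∧ (p : ℝ) ≤ Q)

open Classical in
/-- the number of the primes of `B` which divide `n` -/
noncomputable def om (B : Finset ℕ) (n : ℕ) : ℝ := ((B.filter (fun p => p ∣ n)).card : ℝ)

/-- the integers of absolute value at most `H` -/
noncomputable def Iz (H : ℕ) : Finset ℤ := Finset.Icc (-(H : ℤ)) H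

/-- the additive character `e(α n)` -/
noncomputable def ez (α : ℝ) : ℂ := Complex.exp ((2 * Real.pi * α : ℝ) * Complex.I)

/-- the average of the Liouville function over `N` terms of an arithmetic progression of
difference `q`, twisted by `e(θ i)` -/
noncomputable def bq (q : ℤ) (θ : ℝ) (N : ℕ) (A : ℤ) : ℝ :=
  ‖∑ i ∈ Finset.range N, ez (θ * i) * (lz (A + q * i) : ℂ)‖ / N

/-- the value at `n` of the polynomial `f + h_0 + h_1 X + ... + h_j X^j` -/
noncomputable def Pv (f : Polynomial ℤ) {j : ℕ} (h : Fin (j + 1) → ℤ) (n : ℕ) : ℤ :=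
  f.eval (n : ℤ) + ∑ i, h i * (n : ℤ) ^ (i : ℕ)

/-- polynomial sequences of degree at most `e`, with `e`-th difference `d` -/
def Pd {α : Type} [CommRing α] : ℕ → (ℕ → α) → α → Prop
  | 0, R, d => ∀ i, R i = d
  | e + 1, R, d => ∀ r : ℕ, Pd e (fun i => R (i + r) - R i) (r * d)

/-- the average of `g(n) λ(f(n) + a)` over `n ≤ x` -/
noncomputable def Fg (f : Polynomial ℤ) (g : ℕ → ℂ) (x : ℕ) (a : ℤ) : ℂ :=
  (∑ n ∈ Finset.Icc 1 x, g n * (lz (f.eval (n : ℤ) + a) : ℂ)) / x

/-- the box of coefficients -/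
noncomputable def bx (j H : ℕ) : Finset (Fin (j + 1) → ℤ) := Fintype.piFinset (fun _ => Iz H)

end Pool.Agent.PS
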